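import Mathlib

/-!
# POS LEMMA (MP_70a088_an, rational maps, block RET_R; ALLRET_helper76 section 4, helper33's report section 4): near translations of one disc by iterates of ONE map whose displacements span positively give infinitely many iterates which are near the identity on a fixed disc

No univalence, no Koebe, no flatness: only holomorphy of the iterates `f^[m k]` on the disc.
PROOF. Greedy walk: `z_(n+1) = g_k z_n` stays within `4 th r/c` of `y`. Induction over n with `norm (f^[M_n] z - z) <= r/8` on `ball y (r/4)`: one more step: `<= r/4`. Near `y` (distance `<= 2 th r/c`) the Schwarz lemma for `h = f^[M] - id` gives `norm h <= 12 th r/c`.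
Any other `zeta` of the ball is `g_k z'` with `norm (z' - y) <= norm (zeta - y) - (c/2) norm v_k` (contraction principle) and `h zeta = g_k (f^[M] z') - g_k z'` (commutation), so `norm (h zeta) <= norm (h z') + 2 th norm v_k`: no loss of radius.
-/

set_option autoImplicit false

open Metric Set Filter Topology Complex

noncomputable section

namespace RETP

/-- one step towards the centre. -/
theorem POS_step (w v : ℂ) (c : ℝ) (hc : 0 ≤ c) (hc1 : c ≤ 1) (h1 : (v * (starRingEnd ℂ) w).re ≤ -c * ‖v‖ * ‖w‖) (h2 : 2 * ‖v‖ ≤ c * ‖w‖) :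
    ‖w + v‖ ≤ ‖w‖ - 3 * c / 4 * ‖v‖ := by
  have hv := norm_nonneg v
  have hw := norm_nonneg w
  have h3 : 0 ≤ ‖w‖ - 3 * c / 4 * ‖v‖ := by nlinarith
  have h4 : ‖w + v‖ ^ 2 = ‖w‖ ^ 2 + 2 * (v * (starRingEnd ℂ) w).re + ‖v‖ ^ 2 := by
    rw [← Complex.normSq_eq_norm_sq, ← Complex.normSq_eq_norm_sq, ← Complex.normSq_eq_norm_sq, Complex.normSq_add]
    have : (w * (starRingEnd ℂ) v).re = (v * (starRingEnd ℂ) w).re := by
      simp only [Complex.mul_re, Complex.conj_re, Complex.conj_im]
      ring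
    rw [this]
    ring
  have h5 : ‖w + v‖ ^ 2 ≤ (‖w‖ - 3 * c / 4 * ‖v‖) ^ 2 := by
    rw [h4]
    nlinarith [mul_nonneg hv hw, mul_nonneg hc hv, mul_nonneg (mul_nonneg hc hv) hw, sq_nonneg (c * ‖v‖), mul_le_mul_of_nonneg_left h2 hv]
  exact (sq_le_sq₀ (norm_nonneg _) h3).1 h5

/-- preimages under a near translation. -/
theorem POS_inv (g : ℂ → ℂ) (y v ζ : ℂ) (r θ : ℝ) (hr : 0 < r) (hθ : 0 < θ) (hθ1 : θ ≤ 1 / 8) (hv : ‖v‖ ≤ θ * r)
    (hd : DifferentiableOn ℂ g (ball y r)) (hg : ∀ z ∈ ball y r, ‖g z - z - v‖ ≤ θ * ‖v‖) (hζ : ‖ζ - y‖ ≤ r / 2) :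
    ∃ z : ℂ, ‖z - (ζ - v)‖ ≤ θ * ‖v‖ ∧ g z = ζ := by
  have hvn := norm_nonneg v
  have hin : ∀ z ∈ closedBall (ζ - v) (θ * ‖v‖), z ∈ ball y (3 * r / 4) := by
    intro z hz
    rw [mem_closedBall, dist_eq_norm] at hz
    rw [mem_ball, dist_eq_norm]
    have e : z - y = (z - (ζ - v)) + (ζ - y) - v := by ring
    rw [e]
    have h1 := norm_sub_le ((z - (ζ - v)) + (ζ - y)) v
    have h2 := norm_add_le (z - (ζ - v)) (ζ - y)
    have h3 : θ * ‖v‖ ≤ 1 / 8 * ‖v‖ := mul_le_mul_of_nonneg_right hθ1 hvn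
    have h4 : θ * r ≤ 1 / 8 * r := mul_le_mul_of_nonneg_right hθ1 hr.le
    linarith
  -- the map `T z = ζ - (g z - z)`
  have hder : ∀ z ∈ ball y (3 * r / 4), ‖deriv (fun z => g z - z - v) z‖ ≤ 1 / 2 := by
    intro z hz
    rw [mem_ball, dist_eq_norm] at hz
    have h1 : closedBall z (r / 8) ⊆ ball y r := by
      intro w hw
      rw [mem_closedBall, dist_eq_norm] at hw
      rw [mem_ball, dist_eq_norm]
      have := norm_add_le (w - z) (z - y)
      rw [sub_add_sub_cancel] at this
      linarith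
    have hdc : DiffContOnCl ℂ (fun z => g z - z - v) (ball z (r / 8)) := by
      refine DifferentiableOn.diffContOnCl ?_
      rw [closure_ball z (by positivity)]
      exact ((hd.mono h1).sub differentiableOn_id).sub_const v
    have h2 := Complex.norm_deriv_le_of_forall_mem_sphere_norm_le (by positivity : 0 < r / 8) hdc (fun w hw => hg w (h1 (sphere_subset_closedBall hw)))
    refine h2.trans ?_
    rw [div_le_iff₀ (by positivity)]
    have h3 : θ * ‖v‖ ≤ 1 / 8 * (1 / 8 * r) := mul_le_mul hθ1 (hv.trans (mul_le_mul_of_nonneg_right hθ1 hr.le)) hvn (by norm_num)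
    linarith
  have hlip : ∀ z ∈ closedBall (ζ - v) (θ * ‖v‖), ∀ w ∈ closedBall (ζ - v) (θ * ‖v‖), ‖(g z - z - v) - (g w - w - v)‖ ≤ 1 / 2 * ‖z - w‖ := by
    intro z hz w hw
    have hdo : ∀ x ∈ ball y (3 * r / 4), DifferentiableAt ℂ (fun z => g z - z - v) x := by
      intro x hx
      have h1 : x ∈ ball y r := ball_subset_ball (by linarith) hx
      exact (((hd.differentiableAt (isOpen_ball.mem_nhds h1))).sub differentiableAt_id).sub_const v
    exact Convex.norm_image_sub_le_of_norm_deriv_le (𝕜 := ℂ) (f := fun z => g z - z - v) hdo hder (convex_ball _ _) (hin w hw) (hin z hz)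
  have hmaps : MapsTo (fun z => ζ - (g z - z)) (closedBall (ζ - v) (θ * ‖v‖)) (closedBall (ζ - v) (θ * ‖v‖)) := by
    intro z hz
    rw [mem_closedBall, dist_eq_norm]
    have e : ζ - (g z - z) - (ζ - v) = -(g z - z - v) := by ring
    rw [e, norm_neg]
    exact hg z (ball_subset_ball (by linarith) (hin z hz))
  have hcon : ContractingWith (1 / 2) (hmaps.restrict (fun z => ζ - (g z - z)) _ _) := by
    refine ⟨by norm_num, LipschitzWith.of_dist_le_mul ?_⟩
    rintro ⟨z, hz⟩ ⟨w, hw⟩
    show dist (ζ - (g z - z)) (ζ - (g w - w)) ≤ _ * dist z w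
    rw [dist_eq_norm, dist_eq_norm]
    have e : ζ - (g z - z) - (ζ - (g w - w)) = -((g z - z - v) - (g w - w - v)) := by ring
    rw [e, norm_neg]
    have := hlip z hz w hw
    simpa using this
  obtain ⟨z, hz, hfix, -, -⟩ := ContractingWith.exists_fixedPoint' (isClosed_closedBall.isComplete) hmaps hcon
    (x := ζ - v) (mem_closedBall_self (by positivity)) (edist_ne_top _ _)
  refine ⟨z, ?_, ?_⟩
  · rwa [mem_closedBall, dist_eq_norm] at hz
  · have h1 : ζ - (g z - z) = z := hfix
    linear_combination -h1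

/-- POS LEMMA. -/
theorem POS {ι : Type} [Finite ι] (f : ℂ → ℂ) (y : ℂ) (r c θ : ℝ) (m : ι → ℕ) (v : ι → ℂ) (hr : 0 < r) (hc : 0 < c) (hc1 : c ≤ 1) (hθ : 0 < θ) (hθc : θ ≤ c / 200)
    (hm : ∀ k, 1 ≤ m k) (hv0 : ∀ k, v k ≠ 0) (hvr : ∀ k, ‖v k‖ ≤ θ * r) (hd : ∀ k, DifferentiableOn ℂ (f^[m k]) (ball y r))
    (hg : ∀ k, ∀ z ∈ ball y r, ‖f^[m k] z - z - v k‖ ≤ θ * ‖v k‖)
    (hpos : ∀ e : ℂ, ∃ k, (v k * (starRingEnd ℂ) e).re ≤ -c * ‖v k‖ * ‖e‖) (N : ℕ) :
    ∃ M, N ≤ M ∧ DifferentiableOn ℂ (f^[M]) (ball y (r / 4)) ∧ ∀ z ∈ ball y (r / 4), ‖f^[M] z - z‖ ≤ r / 8 := by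
  obtain ⟨k₀, -⟩ := hpos 0
  have hne : Nonempty ι := ⟨k₀⟩
  have hθr : θ * r ≤ c * r / 200 := by
    have := mul_le_mul_of_nonneg_right hθc hr.le
    linarith
  have hcr : c * r ≤ r := by nlinarith
  have hθ8 : θ ≤ 1 / 8 := by linarith
  -- the least displacement
  obtain ⟨k₁, hk₁⟩ := Finite.exists_min (fun k => ‖v k‖)
  set δ := ‖v k₁‖ with hδ
  have hδ0 : 0 < δ := norm_pos_iff.2 (hv0 k₁)
  -- the radius of the core
  set a := 2 * (θ * r) / c with ha
  have hca : c * a = 2 * (θ * r) := by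
    rw [ha]
    field_simp
  have ha0 : 0 < a := by positivity
  have ha1 : a ≤ r / 100 := by
    rw [ha, div_le_iff₀ hc]
    nlinarith
  have hθrc : θ * r ≤ c * a / 2 := by linarith
  have hθra : θ * r ≤ a / 2 := by nlinarith
  have hfar : ∀ (w : ℂ) (k : ι), a ≤ ‖w‖ → 2 * ‖v k‖ ≤ c * ‖w‖ := by
    intro w k hw
    have h1 := hvr k
    have h2 : c * a ≤ c * ‖w‖ := mul_le_mul_of_nonneg_left hw hc.le
    linarith
  -- commutation
  have hcomm : ∀ (p q : ℕ) (z : ℂ), f^[p] (f^[q] z) = f^[q] (f^[p] z) := by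
    intro p q z
    rw [← Function.iterate_add_apply, ← Function.iterate_add_apply, add_comm]
  -- the improvement lemma
  have himp : ∀ M : ℕ, DifferentiableOn ℂ (f^[M]) (ball y (r / 4)) → (∀ z ∈ ball y (r / 4), ‖f^[M] z - z‖ ≤ r / 4) → ‖f^[M] y - y‖ ≤ 2 * a →
      ∀ z ∈ ball y (r / 4), ‖f^[M] z - z‖ ≤ r / 8 := by
    intro M hMd hMw hMy
    have hyb : y ∈ ball y (r / 4) := mem_ball_self (by positivity)
    -- Schwarz
    have hS : ∀ z ∈ ball y (r / 4), ‖(f^[M] z - z) - (f^[M] y - y)‖ ≤ 4 * ‖z - y‖ := by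
      intro z hz
      have h1 : MapsTo (fun z => f^[M] z - z) (ball y (r / 4)) (closedBall ((fun z => f^[M] z - z) y) r) := by
        intro x hx
        rw [mem_closedBall, dist_eq_norm]
        have h2 := norm_sub_le (f^[M] x - x) (f^[M] y - y)
        have h3 := hMw x hx
        have h4 := hMw y hyb
        linarith
      have h0 : DifferentiableOn ℂ (fun z => f^[M] z - z) (ball y (r / 4)) := hMd.sub differentiableOn_id
      have h2 := Complex.dist_le_div_mul_dist_of_mapsTo_ball h0 h1 hz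
      rw [dist_eq_norm, dist_eq_norm] at h2
      have h3 : r / (r / 4) = 4 := by field_simp
      rw [h3] at h2
      exact h2
    have hind : ∀ n : ℕ, ∀ ζ ∈ ball y (r / 4), ‖ζ - y‖ ≤ a + n * (c / 2 * δ) → ‖f^[M] ζ - ζ‖ ≤ 6 * a + 4 * θ / c * ‖ζ - y‖ := by
      intro n
      induction n with
      | zero =>
        intro ζ hζ h1
        have h2 := hS ζ hζ
        have h3 := norm_add_le ((f^[M] ζ - ζ) - (f^[M] y - y)) (f^[M] y - y)
        rw [sub_add_cancel] at h3
        have h4 : 0 ≤ 4 * θ / c * ‖ζ - y‖ := by positivity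
        norm_num at h1
        linarith
      | succ n ih =>
        intro ζ hζ h1
        rcases le_or_gt ‖ζ - y‖ a with h2 | h2
        · have h3 := hS ζ hζ
          have h4 := norm_add_le ((f^[M] ζ - ζ) - (f^[M] y - y)) (f^[M] y - y)
          rw [sub_add_cancel] at h4
          have h5 : 0 ≤ 4 * θ / c * ‖ζ - y‖ := by positivity
          linarith
        · have hζ2 : ‖ζ - y‖ < r / 4 := by rwa [mem_ball, dist_eq_norm] at hζ
          obtain ⟨k, hk⟩ := hpos (-(ζ - y))
          obtain ⟨z, hz1, hz2⟩ := POS_inv (f^[m k]) y (v k) ζ r θ hr hθ hθ8 (hvr k) (hd k) (hg k) (by linarith)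
          have hvk : δ ≤ ‖v k‖ := hk₁ k
          have h3 : ‖-(ζ - y) + v k‖ ≤ ‖-(ζ - y)‖ - 3 * c / 4 * ‖v k‖ :=
            POS_step _ _ c hc.le hc1 hk (by
              have := hfar (-(ζ - y)) k (by rw [norm_neg]; exact h2.le)
              exact this)
          rw [norm_neg] at h3
          have h4 : ‖z - y‖ ≤ ‖ζ - y‖ - c / 2 * ‖v k‖ := by
            have e : z - y = (z - (ζ - v k)) + (-(-(ζ - y) + v k)) := by ring
            rw [e]
            have h5 := norm_add_le (z - (ζ - v k)) (-(-(ζ - y) + v k))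
            rw [norm_neg] at h5
            have h6 : θ * ‖v k‖ ≤ c / 4 * ‖v k‖ := mul_le_mul_of_nonneg_right (by linarith) (norm_nonneg _)
            linarith
          have hzb : z ∈ ball y (r / 4) := by
            rw [mem_ball, dist_eq_norm]
            have : 0 ≤ c / 2 * ‖v k‖ := by positivity
            linarith
          have h5 := ih z hzb (by
            have h6 : c / 2 * δ ≤ c / 2 * ‖v k‖ := mul_le_mul_of_nonneg_left hvk (by positivity)
            push_cast at h1
            linarith)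
          have hzr : z ∈ ball y r := ball_subset_ball (by linarith) hzb
          have hfz : f^[M] z ∈ ball y r := by
            rw [mem_ball, dist_eq_norm]
            have h7 := norm_add_le (f^[M] z - z) (z - y)
            rw [sub_add_sub_cancel] at h7
            have h8 := hMw z hzb
            rw [mem_ball, dist_eq_norm] at hzb
            linarith
          have e : f^[M] ζ - ζ = (f^[M] z - z) + ((f^[m k] (f^[M] z) - f^[M] z - v k) - (f^[m k] z - z - v k)) := by
            rw [← hz2, hcomm M (m k) z]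
            ring
          rw [e]
          have h9 := norm_add_le (f^[M] z - z) ((f^[m k] (f^[M] z) - f^[M] z - v k) - (f^[m k] z - z - v k))
          have h10 := norm_sub_le (f^[m k] (f^[M] z) - f^[M] z - v k) (f^[m k] z - z - v k)
          have h11 := hg k z hzr
          have h12 := hg k _ hfz
          have h13 : 4 * θ / c * ‖z - y‖ ≤ 4 * θ / c * ‖ζ - y‖ - 2 * θ * ‖v k‖ := by
            have h14 : 4 * θ / c * ‖z - y‖ ≤ 4 * θ / c * (‖ζ - y‖ - c / 2 * ‖v k‖) := mul_le_mul_of_nonneg_left h4 (by positivity)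
            have h15 : 4 * θ / c * (‖ζ - y‖ - c / 2 * ‖v k‖) = 4 * θ / c * ‖ζ - y‖ - 2 * θ * ‖v k‖ := by
              field_simp
              ring
            linarith
          have h16 : (2 : ℝ) * θ * ‖v k‖ = θ * ‖v k‖ + θ * ‖v k‖ := by ring
          linarith
    intro z hz
    obtain ⟨n, hn⟩ := exists_nat_ge ((‖z - y‖ - a) / (c / 2 * δ))
    have hcδ : 0 < c / 2 * δ := by positivity
    rw [div_le_iff₀ hcδ] at hn
    have h1 := hind n z hz (by linarith)
    have h2 : 4 * θ / c * ‖z - y‖ ≤ r / 50 := by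
      rw [mem_ball, dist_eq_norm] at hz
      have h3 : 4 * θ / c ≤ 1 / 50 := by
        rw [div_le_iff₀ hc]
        linarith
      calc 4 * θ / c * ‖z - y‖ ≤ 1 / 50 * r := mul_le_mul h3 (by linarith) (norm_nonneg _) (by norm_num)
        _ = r / 50 := by ring
    linarith
  -- the greedy walk
  have hwalk : ∀ N : ℕ, ∃ M, N ≤ M ∧ DifferentiableOn ℂ (f^[M]) (ball y (r / 4)) ∧ (∀ z ∈ ball y (r / 4), ‖f^[M] z - z‖ ≤ r / 8) ∧ ‖f^[M] y - y‖ ≤ 2 * a := by
    intro N
    induction N with
    | zero =>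
      refine ⟨0, le_rfl, differentiableOn_id, fun z _ => ?_, ?_⟩
      · simp only [Function.iterate_zero, id_eq, sub_self, norm_zero]
        positivity
      · simp only [Function.iterate_zero, id_eq, sub_self, norm_zero]
        positivity
    | succ N ih =>
      obtain ⟨M, hNM, hMd, hMz, hMy⟩ := ih
      obtain ⟨k, hk⟩ := hpos (f^[M] y - y)
      have hin : ∀ z ∈ ball y (r / 4), f^[M] z ∈ ball y r := by
        intro z hz
        have h1 := hMz z hz
        rw [mem_ball, dist_eq_norm] at hz ⊢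
        have h2 := norm_add_le (f^[M] z - z) (z - y)
        rw [sub_add_sub_cancel] at h2
        linarith
      have hit : ∀ z, f^[m k + M] z = f^[m k] (f^[M] z) := fun z => Function.iterate_add_apply _ _ _ _
      have hstep : ∀ z ∈ ball y (r / 4), ‖f^[m k + M] z - f^[M] z‖ ≤ 2 * (θ * r) := by
        intro z hz
        rw [hit]
        have h1 := hg k _ (hin z hz)
        have h2 := norm_add_le (f^[m k] (f^[M] z) - f^[M] z - v k) (v k)
        rw [sub_add_cancel] at h2
        have h3 := hvr k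
        have h4 : θ * ‖v k‖ ≤ 1 * ‖v k‖ := mul_le_mul_of_nonneg_right (by linarith) (norm_nonneg _)
        linarith
      have hyb : y ∈ ball y (r / 4) := mem_ball_self (by positivity)
      have hy2 : ‖f^[m k + M] y - y‖ ≤ 2 * a := by
        rcases le_or_gt ‖f^[M] y - y‖ a with h1 | h1
        · have h2 := hstep y hyb
          have h3 := norm_add_le (f^[m k + M] y - f^[M] y) (f^[M] y - y)
          rw [sub_add_sub_cancel] at h3
          linarith
        · have h2 := POS_step (f^[M] y - y) (v k) c hc.le hc1 hk (hfar _ k h1.le)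
          have h3 := hg k _ (hin y hyb)
          rw [hit]
          have e : f^[m k] (f^[M] y) - y = (f^[m k] (f^[M] y) - f^[M] y - v k) + (f^[M] y - y + v k) := by ring
          rw [e]
          have h4 := norm_add_le (f^[m k] (f^[M] y) - f^[M] y - v k) (f^[M] y - y + v k)
          have h5 : θ * ‖v k‖ ≤ 3 * c / 4 * ‖v k‖ := mul_le_mul_of_nonneg_right (by linarith) (norm_nonneg _)
          linarith
      have hd2 : DifferentiableOn ℂ (f^[m k + M]) (ball y (r / 4)) := by
        have h1 : f^[m k + M] = f^[m k] ∘ f^[M] := Function.iterate_add _ _ _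
        rw [h1]
        exact (hd k).comp hMd hin
      refine ⟨m k + M, ?_, hd2, himp _ hd2 ?_ hy2, hy2⟩
      · have := hm k
        omega
      · intro z hz
        have h1 := hstep z hz
        have h2 := hMz z hz
        have h3 := norm_add_le (f^[m k + M] z - f^[M] z) (f^[M] z - z)
        rw [sub_add_sub_cancel] at h3
        linarith
  obtain ⟨M, h1, h2, h3, -⟩ := hwalk N
  exact ⟨M, h1, h2, h3⟩

end RETP
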