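import Pool.Agent.helper54.V3.SpecT

/-!
# PREFIX (MP_70a088_an, rational maps, block RET_R; ALLRET_helper76 section 2, helper33's report section 2): an injective holomorphic map which commutes with ONE small near translation and moves the centre by at most the radius has derivative `1 + O(th)`

PROOF. Divided difference: `g (F z) - g z = F (g z) - g z`, so `g' z (F z - z) = u (1 + O(th)) + O(th) norm g' z norm u` by Koebe distortion (`V3.KO3_stmt`): `norm (g' z - 1) <= C th` at every `z` of the half disc whose image is in the domain of `F`;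
such points form an initial piece of every radius, and steps of length `R/(8 C)` extend it.
-/

set_option autoImplicit false

open Metric Set Filter Topology Complex

noncomputable section

namespace RETP

/-- the pointwise statement. -/
theorem PRE_pt (h3 : V3.KO3_stmt) : ∃ C θ₀ : ℝ, 1 ≤ C ∧ 0 < θ₀ ∧ θ₀ ≤ 1 / 4 ∧ ∀ (g F : ℂ → ℂ) (z u : ℂ) (r θ : ℝ), 0 < r → 0 ≤ θ → θ ≤ θ₀ → u ≠ 0 → ‖u‖ ≤ θ * r →
    DifferentiableOn ℂ g (ball z r) → InjOn g (ball z r) → g (F z) = F (g z) → ‖F z - z - u‖ ≤ θ * ‖u‖ → ‖F (g z) - g z - u‖ ≤ θ * ‖u‖ → ‖deriv g z - 1‖ ≤ C * θ := by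
  obtain ⟨C₁, hC₁, hK⟩ := h3 (1 / 2) (by norm_num) (by norm_num)
  refine ⟨8 + 4 * C₁, 1 / (4 * C₁ + 8), by linarith, by positivity, ?_, ?_⟩
  · rw [div_le_div_iff₀ (by positivity) (by norm_num)]
    linarith
  intro g F z u r θ hr hθ hθ₀ hu hur hgd hgi hcom h1 h2
  have hθC : θ * (4 * C₁ + 8) ≤ 1 := by
    rw [le_div_iff₀ (by positivity)] at hθ₀
    exact hθ₀
  have hθ1 : θ ≤ 1 / 12 := by nlinarith
  have hC1θ : C₁ * θ ≤ 1 / 4 := by nlinarith
  have hun : 0 < ‖u‖ := norm_pos_iff.2 hu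
  obtain ⟨-, hK2⟩ := hK g z r hr hgd hgi
  set D := F z - z with hD
  have hDu : ‖D - u‖ ≤ θ * ‖u‖ := h1
  have hD1 : ‖D‖ ≤ 2 * ‖u‖ := by
    have := norm_add_le (D - u) u
    rw [sub_add_cancel] at this
    nlinarith
  have hD2 : ‖u‖ ≤ 2 * ‖D‖ := by
    have := norm_sub_le D (D - u)
    rw [sub_sub_cancel] at this
    nlinarith
  have hDr : ‖D‖ ≤ 2 * θ * r := by linarith
  have hDr2 : ‖D‖ < r / 2 := by nlinarith
  have hD0 : 0 < ‖D‖ := by linarith
  -- mean value
  have hin : closedBall z ‖D‖ ⊆ ball z ((1 - 1 / 2) * r) := by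
    intro x hx
    rw [mem_closedBall] at hx
    rw [mem_ball]
    linarith
  have hder : ∀ x ∈ closedBall z ‖D‖, HasDerivAt (fun x => g x - deriv g z * x) (deriv g x - deriv g z) x := by
    intro x hx
    have hx2 : x ∈ ball z r := ball_subset_ball (by linarith) (hin hx)
    have h3 : HasDerivAt (fun x : ℂ => deriv g z * x) (deriv g z) x := by
      simpa using (hasDerivAt_id x).const_mul (deriv g z)
    exact (hgd.differentiableAt (isOpen_ball.mem_nhds hx2)).hasDerivAt.sub h3
  have hmv : ‖(g (z + D) - deriv g z * (z + D)) - (g z - deriv g z * z)‖ ≤ C₁ * (‖D‖ / r) * ‖deriv g z‖ * ‖(z + D) - z‖ := by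
    refine Convex.norm_image_sub_le_of_norm_deriv_le (𝕜 := ℂ) (f := fun x => g x - deriv g z * x) (s := closedBall z ‖D‖)
      (fun x hx => (hder x hx).differentiableAt) (fun x hx => ?_) (convex_closedBall _ _) (mem_closedBall_self (norm_nonneg _)) ?_
    · rw [(hder x hx).deriv]
      refine (hK2 x (hin hx)).2.2.2.trans ?_
      refine mul_le_mul_of_nonneg_right ?_ (norm_nonneg _)
      refine mul_le_mul_of_nonneg_left ?_ (by linarith)
      refine div_le_div_of_nonneg_right ?_ hr.le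
      rwa [mem_closedBall, dist_eq_norm] at hx
    · rw [mem_closedBall, dist_eq_norm]
      simp
  have hzD : z + D = F z := by rw [hD]; ring
  have hgD : g (z + D) = F (g z) := by rw [hzD, hcom]
  have e1 : (g (z + D) - deriv g z * (z + D)) - (g z - deriv g z * z) = (F (g z) - g z) - deriv g z * D := by
    rw [hgD]
    ring
  have e2 : (z + D) - z = D := by ring
  rw [e1, e2] at hmv
  set D' := F (g z) - g z with hD'
  have hDr' : ‖D‖ / r ≤ 2 * θ := by
    rw [div_le_iff₀ hr]
    exact hDr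
  have hq : ‖deriv g z‖ ≤ 1 + ‖deriv g z - 1‖ := by
    have := norm_add_le (1 : ℂ) (deriv g z - 1)
    rw [add_sub_cancel, norm_one] at this
    exact this
  set q := ‖deriv g z - 1‖ with hqdef
  have hq0 : 0 ≤ q := norm_nonneg _
  have h5 : ‖D' - deriv g z * D‖ ≤ 2 * (C₁ * θ) * (1 + q) * ‖D‖ := by
    refine hmv.trans (mul_le_mul_of_nonneg_right ?_ (norm_nonneg _))
    have h6 : C₁ * (‖D‖ / r) ≤ 2 * (C₁ * θ) := by
      have := mul_le_mul_of_nonneg_left hDr' (by linarith : (0 : ℝ) ≤ C₁)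
      linarith
    exact mul_le_mul h6 hq (norm_nonneg _) (by positivity)
  have h6 : ‖D' - D‖ ≤ 4 * θ * ‖D‖ := by
    have e : D' - D = (D' - u) - (D - u) := by ring
    rw [e]
    have h7 := norm_sub_le (D' - u) (D - u)
    have h8 : θ * ‖u‖ ≤ θ * (2 * ‖D‖) := mul_le_mul_of_nonneg_left hD2 hθ
    linarith
  have h7 : q * ‖D‖ ≤ 4 * θ * ‖D‖ + 2 * (C₁ * θ) * (1 + q) * ‖D‖ := by
    have e : (deriv g z - 1) * D = (D' - D) - (D' - deriv g z * D) := by ring
    have h8 : ‖(deriv g z - 1) * D‖ ≤ ‖D' - D‖ + ‖D' - deriv g z * D‖ := by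
      rw [e]
      exact norm_sub_le _ _
    rw [norm_mul] at h8
    linarith
  have h8 : q ≤ 4 * θ + 2 * (C₁ * θ) * (1 + q) := by
    have h9 : q * ‖D‖ ≤ (4 * θ + 2 * (C₁ * θ) * (1 + q)) * ‖D‖ := by linarith
    exact le_of_mul_le_mul_right h9 hD0
  nlinarith [mul_nonneg (by linarith : (0:ℝ) ≤ C₁) hθ]

/-- PREFIX, general form: `g` commutes with `F` on the half disc. -/
theorem PRE_gen (h3 : V3.KO3_stmt) : ∃ C θ₀ : ℝ, 1 ≤ C ∧ 0 < θ₀ ∧ ∀ (g F : ℂ → ℂ) (y u : ℂ) (R θ : ℝ), 0 < R → 0 ≤ θ → θ ≤ θ₀ → u ≠ 0 → ‖u‖ ≤ θ * R →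
    DifferentiableOn ℂ g (ball y R) → InjOn g (ball y R) → (∀ z ∈ ball y (R / 2), g (F z) = F (g z)) → (∀ z ∈ ball y (3 * R), ‖F z - z - u‖ ≤ θ * ‖u‖) → ‖g y - y‖ ≤ R →
    ∀ z ∈ ball y (R / 2), ‖deriv g z - 1‖ ≤ C * θ ∧ ‖g z - z - (g y - y)‖ ≤ C * θ * ‖z - y‖ := by
  obtain ⟨C, θ₁, hC, hθ₁, hθ₁4, hP⟩ := PRE_pt h3
  obtain ⟨C₁, hC₁, hK⟩ := h3 (1 / 2) (by norm_num) (by norm_num)
  refine ⟨2 * C, min (θ₁ / 2) (1 / (8 * C)), by linarith, by positivity, ?_⟩
  intro g F y u R θ hR hθ hθ₀ hu hur hgd hgi hcom hF hgy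
  have hθa : 2 * θ ≤ θ₁ := by
    have := hθ₀.trans (min_le_left _ _)
    linarith
  have hθb : C * θ ≤ 1 / 8 := by
    have h1 := hθ₀.trans (min_le_right _ _)
    rw [le_div_iff₀ (by positivity)] at h1
    linarith
  -- the pointwise statement at a point whose image is in the big disc
  have hpt : ∀ z ∈ ball y (R / 2), g z ∈ ball y (3 * R) → ‖deriv g z - 1‖ ≤ 2 * C * θ := by
    intro z hz hgz
    have hsub : ball z (R / 2) ⊆ ball y R := by
      intro x hx
      rw [mem_ball] at hx hz ⊢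
      have := dist_triangle x z y
      linarith
    have h1 := hP g F z u (R / 2) (2 * θ) (by positivity) (by positivity) hθa hu (by linarith) (hgd.mono hsub) (hgi.mono hsub) (hcom z hz)
      ((hF z (ball_subset_ball (by linarith) hz)).trans (by nlinarith [norm_nonneg u])) ((hF _ hgz).trans (by nlinarith [norm_nonneg u]))
    linarith
  set s := R / (8 * C₁) with hs
  have hs0 : 0 < s := by positivity
  have hind : ∀ j : ℕ, ∀ z ∈ ball y (R / 2), ‖z - y‖ ≤ j * s → g z ∈ ball y (3 * R) ∧ ‖g z - z - (g y - y)‖ ≤ 2 * C * θ * ‖z - y‖ := by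
    intro j
    induction j with
    | zero =>
      intro z hz h1
      have h2 : z = y := by
        have : ‖z - y‖ ≤ 0 := by simpa using h1
        exact sub_eq_zero.1 (norm_le_zero_iff.1 this)
      subst h2
      refine ⟨?_, by simp⟩
      rw [mem_ball, dist_eq_norm]
      linarith
    | succ j ih =>
      intro z hz h1
      have hz2 : ‖z - y‖ < R / 2 := by rwa [mem_ball, dist_eq_norm] at hz
      -- all points of the segment
      have hseg : ∀ x ∈ segment ℝ y z, x ∈ ball y (R / 2) ∧ g x ∈ ball y (3 * R) := by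
        intro x hx
        rw [segment_eq_image'] at hx
        obtain ⟨t, ⟨ht0, ht1⟩, rfl⟩ := hx
        have hxy : ‖y + t • (z - y) - y‖ = t * ‖z - y‖ := by
          rw [add_sub_cancel_left, norm_smul, Real.norm_of_nonneg ht0]
        have hx1 : ‖y + t • (z - y) - y‖ ≤ ‖z - y‖ := by
          rw [hxy]
          exact mul_le_of_le_one_left (norm_nonneg _) ht1
        have hxb : y + t • (z - y) ∈ ball y (R / 2) := by
          rw [mem_ball, dist_eq_norm]
          linarith
        refine ⟨hxb, ?_⟩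
        set x := y + t • (z - y) with hx
        -- the previous point
        have hj1 : (0 : ℝ) < (j : ℝ) + 1 := by positivity
        set x' := y + (((j : ℝ) / (j + 1)) : ℝ) • (x - y) with hx'
        have hx'y : ‖x' - y‖ = (j : ℝ) / (j + 1) * ‖x - y‖ := by
          rw [hx', add_sub_cancel_left, norm_smul, Real.norm_of_nonneg (by positivity)]
        have hxx' : x - x' = ((1 / ((j : ℝ) + 1)) : ℝ) • (x - y) := by
          have e : (1 : ℝ) / ((j : ℝ) + 1) = 1 - (j : ℝ) / (j + 1) := by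
            field_simp
            ring
          rw [e, sub_smul, one_smul, hx']
          abel
        have hxs : ‖x - y‖ ≤ ((j : ℝ) + 1) * s := by
          push_cast at h1
          linarith
        have hb1 : ‖x' - y‖ ≤ j * s := by
          rw [hx'y, div_mul_eq_mul_div, div_le_iff₀ hj1]
          calc (j : ℝ) * ‖x - y‖ ≤ j * (((j : ℝ) + 1) * s) := mul_le_mul_of_nonneg_left hxs (by positivity)
            _ = j * s * ((j : ℝ) + 1) := by ring
        have hb2 : ‖x - x'‖ ≤ s := by
          rw [hxx', norm_smul, Real.norm_of_nonneg (by positivity), one_div, inv_mul_le_iff₀ hj1]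
          exact hxs
        have hb3 : ‖x' - y‖ ≤ ‖x - y‖ := by
          rw [hx'y]
          refine mul_le_of_le_one_left (norm_nonneg _) ?_
          rw [div_le_one hj1]
          linarith
        have hx'b : x' ∈ ball y (R / 2) := by
          rw [mem_ball, dist_eq_norm]
          linarith
        obtain ⟨hg1, hg2⟩ := ih x' hx'b hb1
        have hd1 := hpt x' hx'b hg1
        have hd2 : ‖deriv g x'‖ ≤ 2 := by
          have := norm_add_le (deriv g x' - 1) 1
          rw [sub_add_cancel, norm_one] at this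
          linarith
        have hsub : ball x' (R / 2) ⊆ ball y R := by
          intro w hw
          rw [mem_ball] at hw hx'b ⊢
          have := dist_triangle w x' y
          linarith
        have hs4 : s ≤ R / 8 := by
          rw [hs]
          exact div_le_div_of_nonneg_left hR.le (by norm_num) (by linarith)
        have hxball : x ∈ ball x' ((1 - 1 / 2) * (R / 2)) := by
          rw [mem_ball, dist_eq_norm]
          linarith
        have hk := ((hK g x' (R / 2) (by positivity) (hgd.mono hsub) (hgi.mono hsub)).2 x hxball).2.2.1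
        have hk2 : ‖g x - g x'‖ ≤ R / 4 := by
          refine hk.trans ?_
          calc C₁ * ‖x - x'‖ * ‖deriv g x'‖ ≤ C₁ * s * 2 := by
                refine mul_le_mul (mul_le_mul_of_nonneg_left hb2 (by linarith)) hd2 (norm_nonneg _) (by positivity)
            _ = R / 4 := by
                rw [hs]
                field_simp
                ring
        rw [mem_ball, dist_eq_norm]
        have e : g x - y = (g x - g x') + ((g x' - x' - (g y - y)) + ((x' - y) + (g y - y))) := by ring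
        rw [e]
        have n1 := norm_add_le (g x - g x') ((g x' - x' - (g y - y)) + ((x' - y) + (g y - y)))
        have n2 := norm_add_le (g x' - x' - (g y - y)) ((x' - y) + (g y - y))
        have n3 := norm_add_le (x' - y) (g y - y)
        have n4 : 2 * C * θ * ‖x' - y‖ ≤ 1 / 4 * R := by
          refine mul_le_mul (by linarith) (by linarith) (norm_nonneg _) (by norm_num)
        linarith
      refine ⟨(hseg z (right_mem_segment ℝ y z)).2, ?_⟩
      have hder : ∀ x ∈ segment ℝ y z, HasDerivAt (fun x => g x - x) (deriv g x - 1) x := by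
        intro x hx
        have hx2 : x ∈ ball y R := ball_subset_ball (by linarith) (hseg x hx).1
        exact (hgd.differentiableAt (isOpen_ball.mem_nhds hx2)).hasDerivAt.sub (hasDerivAt_id x)
      have hmv := Convex.norm_image_sub_le_of_norm_deriv_le (𝕜 := ℂ) (f := fun x => g x - x) (s := segment ℝ y z) (C := 2 * C * θ)
        (fun x hx => (hder x hx).differentiableAt) (fun x hx => by
          rw [(hder x hx).deriv]
          exact hpt x (hseg x hx).1 (hseg x hx).2) (convex_segment _ _) (left_mem_segment ℝ y z) (right_mem_segment ℝ y z)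
      exact hmv
  intro z hz
  obtain ⟨j, hj⟩ := exists_nat_ge (‖z - y‖ / s)
  rw [div_le_iff₀ hs0] at hj
  obtain ⟨h1, h2⟩ := hind j z hz hj
  exact ⟨hpt z hz h1, h2⟩

/-- PREFIX for iterates of one map. -/
theorem PRE (h3 : V3.KO3_stmt) : ∃ C θ₀ : ℝ, 1 ≤ C ∧ 0 < θ₀ ∧ ∀ (f : ℂ → ℂ) (y u : ℂ) (R θ : ℝ) (m n : ℕ), 0 < R → 0 ≤ θ → θ ≤ θ₀ → u ≠ 0 → ‖u‖ ≤ θ * R →
    DifferentiableOn ℂ (f^[m]) (ball y R) → InjOn (f^[m]) (ball y R) → (∀ z ∈ ball y (3 * R), ‖f^[n] z - z - u‖ ≤ θ * ‖u‖) → ‖f^[m] y - y‖ ≤ R →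
    ∀ z ∈ ball y (R / 2), ‖deriv (f^[m]) z - 1‖ ≤ C * θ ∧ ‖f^[m] z - z - (f^[m] y - y)‖ ≤ C * θ * ‖z - y‖ := by
  obtain ⟨C, θ₀, hC, hθ₀, h⟩ := PRE_gen h3
  refine ⟨C, θ₀, hC, hθ₀, fun f y u R θ m n hR hθ hθ1 hu hur hd hi hF hy => ?_⟩
  refine h (f^[m]) (f^[n]) y u R θ hR hθ hθ1 hu hur hd hi (fun z _ => ?_) hF hy
  rw [← Function.iterate_add_apply, ← Function.iterate_add_apply, add_comm]

end RETP
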